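import Pool.Agent.Helper98.EX.Stmts3

/-!
# EVFAR : far pairs and crude bounds of the resistance ratios
-/

namespace Pool.Agent.Helper98.EX

open Finset MeasureTheory ProbabilityTheory Filter
open scoped Topology

lemma evfar_markov {Ω : Type} [MeasurableSpace Ω] {P : Measure Ω} {f : Ω → ℝ} (hf : Measurable f)
    {c a : ℝ} (ha : 0 < a) (h : ∫⁻ ω, ENNReal.ofReal (f ω ^ (1 : ℝ)) ∂P ≤ ENNReal.ofReal c) :
    P {ω | a < f ω} ≤ ENNReal.ofReal (c / a) := by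
  have h1 : ∫⁻ ω, ENNReal.ofReal (f ω) ∂P ≤ ENNReal.ofReal c := by
    refine le_trans (le_of_eq ?_) h
    refine lintegral_congr (fun ω => ?_)
    rw [Real.rpow_one]
  have h2 := mul_meas_ge_le_lintegral₀ (μ := P) (f := fun ω => ENNReal.ofReal (f ω))
    hf.ennreal_ofReal.aemeasurable (ENNReal.ofReal a)
  have h3 : P {ω | a < f ω} ≤ P {ω | ENNReal.ofReal a ≤ ENNReal.ofReal (f ω)} := by
    apply measure_mono
    intro ω hω
    exact ENNReal.ofReal_le_ofReal (le_of_lt hω)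
  rw [ENNReal.ofReal_div_of_pos ha, ENNReal.le_div_iff_mul_le
    (Or.inl (by simpa using ha)) (Or.inl ENNReal.ofReal_ne_top), mul_comm]
  calc ENNReal.ofReal a * P {ω | a < f ω} ≤
        ENNReal.ofReal a * P {ω | ENNReal.ofReal a ≤ ENNReal.ofReal (f ω)} := by gcongr
    _ ≤ _ := h2.trans h1

lemma evfar_meas {Ω : Type} [MeasurableSpace Ω] {P : Measure Ω} {X : ℕ → Ω → ℝ}
    (hX : IIDE P X) (z x : ℕ) :
    Measurable (fun ω => RR (rE (EE X ω)) (lE (EE X ω)) z x) := by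
  unfold RR rE lE EE
  refine Finset.measurable_prod _ (fun b _ => ?_)
  exact (measurable_const.sub (hX.meas b)).div (hX.meas (b - 1))

lemma evfar_geom {θ : ℝ} (h0 : 0 < θ) (h1 : θ < 1) (x : ℕ) :
    ∑ z ∈ Finset.range (x + 1), θ ^ (x - z) ≤ 1 / (1 - θ) := by
  have e : ∑ z ∈ Finset.range (x + 1), θ ^ (x - z) = ∑ j ∈ Finset.range (x + 1), θ ^ j := by
    rw [← Finset.sum_range_reflect (fun j => θ ^ j)]
    refine Finset.sum_congr rfl (fun z hz => ?_)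
    rw [Finset.mem_range] at hz
    have : x + 1 - 1 - z = x - z := by omega
    rw [this]
  rw [e, one_div, ← tsum_geometric_of_lt_one h0.le h1]
  exact (summable_geometric_of_lt_one h0.le h1).sum_le_tsum _ (fun i _ => by positivity)

theorem st_EVFAR (hMOM : ST_MOM) : ST_EVFAR := by
  intro Ω _ P X θ hX hθ0 hθ1 hmom ηp hηp
  obtain ⟨C, hC, hM⟩ := hMOM Ω P X 1 θ hX le_rfl hθ0 hθ1 hmom
  have hprob := hX.prob
  set C' : ℝ := C * (2 + 1 / (1 - θ)) with hC'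
  have h1θ : 0 < 1 - θ := by linarith
  have hC'0 : 0 < C' := by positivity
  refine ⟨max 1 ⌈C' / ηp⌉₊, fun N w hN hw => ?_⟩
  have hN1 : 1 ≤ N := le_trans (le_max_left _ _) hN
  have hNpos : (0 : ℝ) < N := by exact_mod_cast hN1
  have hN1' : (1 : ℝ) ≤ N := by exact_mod_cast hN1
  have hNC : C' / N ≤ ηp := by
    have h1 : C' / ηp ≤ N := (Nat.le_ceil _).trans (by exact_mod_cast le_trans (le_max_right _ _) hN)
    rw [div_le_iff₀ hηp] at h1
    rw [div_le_iff₀ hNpos]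
    linarith
  set Rf : ℕ → ℕ → Ω → ℝ := fun z x ω => RR (rE (EE X ω)) (lE (EE X ω)) z x with hRf
  have e12 : (N : ℝ) ^ (-12 : ℝ) = ((N : ℝ) ^ 12)⁻¹ := by
    rw [Real.rpow_neg hNpos.le]
    norm_cast
  have e2 : (N : ℝ) ^ (2 : ℝ) = (N : ℝ) ^ 2 := by norm_cast
  have em2 : (N : ℝ) ^ (-2 : ℝ) = ((N : ℝ) ^ 2)⁻¹ := by
    rw [Real.rpow_neg hNpos.le]
    norm_cast
  -- `θ ^ w ≤ N ^ (-15)`
  have hlog : 0 < Real.log (1 / θ) := Real.log_pos (by rw [lt_div_iff₀ hθ0]; linarith)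
  have hθw : θ ^ w ≤ ((N : ℝ) ^ 15)⁻¹ := by
    have h1 : θ ^ w = Real.exp (-(w * Real.log (1 / θ))) := by
      rw [one_div, Real.log_inv, mul_neg, neg_neg, ← Real.log_pow, Real.exp_log (by positivity)]
    have h2 : ((N : ℝ) ^ 15)⁻¹ = Real.exp (-(15 * Real.log N)) := by
      rw [Real.exp_neg, show (15 : ℝ) * Real.log N = Real.log ((N : ℝ) ^ 15) by
        rw [Real.log_pow]; norm_num, Real.exp_log (by positivity)]
    rw [h1, h2]
    apply Real.exp_le_exp.mpr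
    apply neg_le_neg
    rw [div_mul_eq_mul_div, div_le_iff₀ hlog] at hw
    exact hw
  -- the three kinds of bad events
  have hS1 : ∀ z x, z + w ≤ x → P {ω | (N : ℝ) ^ (-12 : ℝ) < Rf z x ω} ≤
      ENNReal.ofReal (C / (N : ℝ) ^ 3) := by
    intro z x hzx
    have h1 := evfar_markov (evfar_meas hX z x) (a := (N : ℝ) ^ (-12 : ℝ))
      (by positivity) (hM z x (by omega)).1
    refine h1.trans (ENNReal.ofReal_le_ofReal ?_)
    rw [e12, div_inv_eq_mul]
    have h2 : θ ^ (x - z) ≤ ((N : ℝ) ^ 15)⁻¹ :=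
      (pow_le_pow_of_le_one hθ0.le hθ1.le (by omega)).trans hθw
    calc C * θ ^ (x - z) * (N : ℝ) ^ 12 ≤ C * ((N : ℝ) ^ 15)⁻¹ * (N : ℝ) ^ 12 := by gcongr
      _ = C / (N : ℝ) ^ 3 := by field_simp
  have hS2 : ∀ z x, z ≤ x → P {ω | (N : ℝ) ^ (2 : ℝ) < Rf z x ω} ≤
      ENNReal.ofReal (C / (N : ℝ) ^ 2 * θ ^ (x - z)) := by
    intro z x hzx
    have h1 := evfar_markov (evfar_meas hX z x) (a := (N : ℝ) ^ (2 : ℝ))
      (by positivity) (hM z x hzx).1
    refine h1.trans (ENNReal.ofReal_le_ofReal (le_of_eq ?_))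
    rw [e2]
    ring
  have hS3 : ∀ x, P {ω | (N : ℝ) ^ (2 : ℝ) < 1 / X x ω} ≤ ENNReal.ofReal (C / (N : ℝ) ^ 2) := by
    intro x
    have h0 := (hM x x le_rfl).2.1
    have h0' : ∫⁻ ω, ENNReal.ofReal ((1 / X x ω) ^ (1 : ℝ)) ∂P ≤ ENNReal.ofReal C := by
      have e : ∀ ω, RR (rE (EE X ω)) (lE (EE X ω)) x x = 1 := by
        intro ω; unfold RR; simp
      simp only [e, Nat.sub_self, pow_zero, mul_one] at h0
      exact h0
    have h1 := evfar_markov (P := P) (f := fun ω => 1 / X x ω)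
      (measurable_const.div (hX.meas x)) (a := (N : ℝ) ^ (2 : ℝ)) (by positivity) h0'
    rw [e2] at h1 ⊢
    exact h1
  -- union
  have hsub : {ω | ¬ ((∀ z x, z + w ≤ x → x < N →
        RR (rE (EE X ω)) (lE (EE X ω)) z x ≤ (N : ℝ) ^ (-12 : ℝ)) ∧
      (∀ z x, z ≤ x → x < N → RR (rE (EE X ω)) (lE (EE X ω)) z x ≤ (N : ℝ) ^ (2 : ℝ)) ∧
      (∀ x, 1 ≤ x → x < N → (N : ℝ) ^ (-2 : ℝ) ≤ rE (EE X ω) x))} ⊆
      ⋃ x ∈ Finset.range N, ((⋃ z ∈ Finset.range (x + 1),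
        ((if z + w ≤ x then {ω | (N : ℝ) ^ (-12 : ℝ) < Rf z x ω} else ∅) ∪
          {ω | (N : ℝ) ^ (2 : ℝ) < Rf z x ω})) ∪ {ω | (N : ℝ) ^ (2 : ℝ) < 1 / X (x - 1) ω}) := by
    intro ω hω
    rw [Set.mem_ofPred_eq, not_and_or, not_and_or] at hω
    simp only [Set.mem_iUnion, Set.mem_union, exists_prop, Finset.mem_range]
    rcases hω with h | h | h
    · push Not at h
      obtain ⟨z, x, h1, h2, h3⟩ := h
      refine ⟨x, h2, Or.inl ⟨z, by omega, Or.inl ?_⟩⟩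
      rw [if_pos h1]
      exact h3
    · push Not at h
      obtain ⟨z, x, h1, h2, h3⟩ := h
      exact ⟨x, h2, Or.inl ⟨z, by omega, Or.inr h3⟩⟩
    · push Not at h
      obtain ⟨x, h1, h2, h3⟩ := h
      refine ⟨x, h2, Or.inr ?_⟩
      unfold rE EE at h3
      rw [Set.mem_ofPred_eq, e2]
      rw [em2] at h3
      have hpos := (hX.rng (x - 1) ω).1
      rw [lt_div_iff₀ hpos]
      rw [lt_inv_comm₀ hpos (by positivity)] at h3
      rw [lt_inv_comm₀ (by positivity) hpos] at h3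
      have h4 : (N : ℝ) ^ 2 * X (x - 1) ω < (N : ℝ) ^ 2 * ((N : ℝ) ^ 2)⁻¹ := by
        apply mul_lt_mul_of_pos_left _ (by positivity)
        exact h3
      rwa [mul_inv_cancel₀ (by positivity)] at h4
  have hx : ∀ x ∈ Finset.range N, P ((⋃ z ∈ Finset.range (x + 1),
        ((if z + w ≤ x then {ω | (N : ℝ) ^ (-12 : ℝ) < Rf z x ω} else ∅) ∪
          {ω | (N : ℝ) ^ (2 : ℝ) < Rf z x ω})) ∪ {ω | (N : ℝ) ^ (2 : ℝ) < 1 / X (x - 1) ω}) ≤
      ENNReal.ofReal (C' / (N : ℝ) ^ 2) := by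
    intro x hx
    rw [Finset.mem_range] at hx
    have hxN : (x : ℝ) + 1 ≤ N := by exact_mod_cast hx
    refine (measure_union_le _ _).trans ?_
    have h1 : P (⋃ z ∈ Finset.range (x + 1),
        ((if z + w ≤ x then {ω | (N : ℝ) ^ (-12 : ℝ) < Rf z x ω} else ∅) ∪
          {ω | (N : ℝ) ^ (2 : ℝ) < Rf z x ω})) ≤
        ENNReal.ofReal (∑ z ∈ Finset.range (x + 1),
          (C / (N : ℝ) ^ 3 + C / (N : ℝ) ^ 2 * θ ^ (x - z))) := by
      rw [ENNReal.ofReal_sum_of_nonneg (fun z _ => by positivity)]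
      refine (measure_biUnion_finset_le _ _).trans (Finset.sum_le_sum (fun z hz => ?_))
      rw [Finset.mem_range] at hz
      refine (measure_union_le _ _).trans ?_
      rw [ENNReal.ofReal_add (by positivity) (by positivity)]
      refine add_le_add ?_ (hS2 z x (by omega))
      split_ifs with hzw
      · exact hS1 z x hzw
      · rw [measure_empty]; exact zero_le
    refine (add_le_add h1 (hS3 (x - 1))).trans ?_
    rw [← ENNReal.ofReal_add (Finset.sum_nonneg (fun z _ => by positivity)) (by positivity)]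
    apply ENNReal.ofReal_le_ofReal
    rw [Finset.sum_add_distrib, Finset.sum_const, Finset.card_range, nsmul_eq_mul,
      ← Finset.mul_sum]
    have h2 := evfar_geom hθ0 hθ1 x
    have h3 : ((x + 1 : ℕ) : ℝ) * (C / (N : ℝ) ^ 3) ≤ C / (N : ℝ) ^ 2 := by
      push_cast
      calc ((x : ℝ) + 1) * (C / (N : ℝ) ^ 3) ≤ N * (C / (N : ℝ) ^ 3) := by gcongr
        _ = C / (N : ℝ) ^ 2 := by field_simp
    have h4 : C / (N : ℝ) ^ 2 * ∑ z ∈ Finset.range (x + 1), θ ^ (x - z) ≤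
        C / (N : ℝ) ^ 2 * (1 / (1 - θ)) := by gcongr
    calc _ ≤ C / (N : ℝ) ^ 2 + C / (N : ℝ) ^ 2 * (1 / (1 - θ)) + C / (N : ℝ) ^ 2 := by linarith
      _ = C' / (N : ℝ) ^ 2 := by rw [hC']; ring
  refine (measure_mono hsub).trans ((measure_biUnion_finset_le _ _).trans
    ((Finset.sum_le_sum hx).trans ?_))
  rw [Finset.sum_const, Finset.card_range, nsmul_eq_mul, ← ENNReal.ofReal_natCast,
    ← ENNReal.ofReal_mul (by positivity)]
  apply ENNReal.ofReal_le_ofReal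
  calc (N : ℝ) * (C' / (N : ℝ) ^ 2) = C' / N := by field_simp
    _ ≤ ηp := hNC

end Pool.Agent.Helper98.EX
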