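import Pool.Agent.Helper98.EX.Stmts

/-!
# WALKH : the hole version of WALK by mirror symmetry
-/

namespace Pool.Agent.Helper98.EX

open Finset

lemma walkh_cnt {N : ℕ} (hM : ∀ (η : Cfg N) (x : ℕ), x < N → occ (mir η) x = !(occ η (N - 1 - x)))
    (η : Cfg N) {A B : ℕ} (hAB : A < B) (hB : B ≤ N) (hc : cnt η A B + 1 = B - A) :
    cnt (mir η) (N - B) (N - A) = 1 := by
  have h1 : cnt (mir η) (N - B) (N - A) =
      ∑ i ∈ Finset.Ico A B, (if occ η i = true then 0 else 1) := by
    unfold cnt
    have e := Finset.sum_Ico_reflect (fun j => if occ (mir η) j = true then 1 else 0) A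
      (show B ≤ (N - 1) + 1 by omega)
    have e1 : N - 1 + 1 - B = N - B := by omega
    have e2 : N - 1 + 1 - A = N - A := by omega
    rw [e1, e2] at e
    rw [← e]
    refine Finset.sum_congr rfl (fun j hj => ?_)
    rw [Finset.mem_Ico] at hj
    have hj' : N - 1 - j < N := by omega
    have hjj : N - 1 - (N - 1 - j) = j := by omega
    simp only [hM η (N - 1 - j) hj', hjj]
    by_cases h : occ η j = true <;> simp [h]
  have h2 : ∑ i ∈ Finset.Ico A B, (if occ η i = true then 0 else 1) + cnt η A B = B - A := by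
    unfold cnt
    rw [← Finset.sum_add_distrib]
    have : ∀ i ∈ Finset.Ico A B,
        (if occ η i = true then 0 else 1) + (if occ η i = true then 1 else 0) = 1 := by
      intro i _
      split_ifs <;> rfl
    rw [Finset.sum_congr rfl this, Finset.sum_const, Nat.card_Ico, smul_eq_mul, mul_one]
  omega

lemma walkh_RR {N : ℕ} (r l : ℕ → ℝ) {z u' : ℕ} (hu : u' < N) :
    RR (mirr N r) (mirr N l) z (N - 1 - u') = RR r l u' (N - 1 - z) := by
  unfold RR mirr
  have e := Finset.prod_Ico_reflect (fun b => l b / r b) (z + 1) (show N - u' ≤ N + 1 by omega)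
  have e1 : N + 1 - (N - u') = u' + 1 := by omega
  have e2 : N + 1 - (z + 1) = N - z := by omega
  rw [e1, e2] at e
  have s1 : Finset.Ioc z (N - 1 - u') = Finset.Ico (z + 1) (N - u') := by
    ext b; rw [Finset.mem_Ioc, Finset.mem_Ico]; omega
  have s2 : Finset.Ioc u' (N - 1 - z) = Finset.Ico (u' + 1) (N - z) := by
    ext b; rw [Finset.mem_Ioc, Finset.mem_Ico]; omega
  rw [s1, s2]
  exact e

theorem st_WALKH (hW : ST_WALK) (hMIR : ST_MIR) : ST_WALKH := by
  intro N r l v lam S A B u u' c m η hAdm hPos hcB hu'c hu'u hAu' hBN hAS hBS hS hcnt hocc hv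
    hlam hcond
  obtain ⟨hM1, hM2, _, hM4⟩ := hMIR N
  have hAB : A < B := by omega
  -- translated data
  have hAdm' : Adm N (mirr N r) (mirr N l) := by
    intro x hx1 hx2
    exact hAdm (N - x) (by omega) (by omega)
  have hPos' : Pos N (mirr N l) := by
    intro x hx1 hx2
    exact hPos (N - x) (by omega) (by omega)
  have hmem : ∀ x, x ∈ mirS N S ↔ ∃ y, y ∈ S ∧ 1 ≤ y ∧ y < N ∧ N - y = x := by
    intro x
    unfold mirS full
    rw [Finset.mem_image]
    constructor
    · rintro ⟨y, hy, rfl⟩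
      rw [Finset.mem_inter, Finset.mem_Ico] at hy
      exact ⟨y, hy.1, hy.2.1, hy.2.2, rfl⟩
    · rintro ⟨y, h1, h2, h3, rfl⟩
      exact ⟨y, by rw [Finset.mem_inter, Finset.mem_Ico]; exact ⟨h1, h2, h3⟩, rfl⟩
  have hA' : N - B ∉ mirS N S := by
    rw [hmem]
    rintro ⟨y, h1, h2, h3, h4⟩
    have : y = B := by omega
    exact hBS (this ▸ h1)
  have hB' : N - A ∉ mirS N S := by
    rw [hmem]
    rintro ⟨y, h1, h2, h3, h4⟩
    have : y = A := by omega
    exact hAS (this ▸ h1)
  have hS' : ∀ x, N - B < x → x < N - A → x ∈ mirS N S := by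
    intro x h1 h2
    rw [hmem]
    exact ⟨N - x, hS (N - x) (by omega) (by omega), by omega, by omega, by omega⟩
  have hcnt' : cnt (mir η) (N - B) (N - A) = 1 := walkh_cnt hM2 η hAB hBN hcnt
  have hocc' : occ (mir η) (N - 1 - c) = true := by
    rw [hM2 η (N - 1 - c) (by omega)]
    have e : N - 1 - (N - 1 - c) = c := by omega
    rw [e, hocc]
    rfl
  have key := hW N (mirr N r) (mirr N l) (fun y => v (N - 1 - y)) lam (mirS N S) (N - B) (N - A)
    (N - 1 - u) (N - 1 - u') (N - 1 - c) m (mir η) hAdm' hPos' (by omega) (by omega) (by omega)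
    (by omega) (by omega) hA' hB' hS' hcnt' hocc' (fun y => hv _) hlam (by
      intro y h1 h2
      have h := hcond (N - 1 - y) (by omega) (by omega)
      have e1 : N - 1 - y + 1 = N - y := by omega
      unfold mirr
      have e3 : N - (y + 1) = N - 1 - y := by omega
      simp only [e3]
      by_cases hy : y = N - B
      · rw [if_pos hy]
        rw [if_pos (by omega)] at h
        exact h
      · rw [if_neg hy]
        rw [if_neg (by omega), e1] at h
        have e2 : N - 1 - (y - 1) = N - y := by omega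
        rw [e2]
        exact h)
  -- the event
  have hev : pr r l (fun _ => S) m {ξ : Cfg N | ∃ i, u < i ∧ i < B ∧ occ ξ i = false} η
      = pr (mirr N r) (mirr N l) (fun _ => mirS N S) m
        {ξ : Cfg N | ∃ i, N - B ≤ i ∧ i < N - 1 - u ∧ occ ξ i = true} (mir η) := by
    unfold pr
    rw [hM4 r l (fun _ => S) m]
    have hf : (fun ζ : Cfg N => ind {ξ : Cfg N | ∃ i, u < i ∧ i < B ∧ occ ξ i = false} (mir ζ))
        = ind {ξ : Cfg N | ∃ i, N - B ≤ i ∧ i < N - 1 - u ∧ occ ξ i = true} := by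
      funext ζ
      have hiff : mir ζ ∈ {ξ : Cfg N | ∃ i, u < i ∧ i < B ∧ occ ξ i = false} ↔
          ζ ∈ {ξ : Cfg N | ∃ i, N - B ≤ i ∧ i < N - 1 - u ∧ occ ξ i = true} := by
        constructor
        · rintro ⟨i, h1, h2, h3⟩
          refine ⟨N - 1 - i, by omega, by omega, ?_⟩
          rw [hM2 ζ i (by omega)] at h3
          cases h : occ ζ (N - 1 - i)
          · rw [h] at h3; exact absurd h3 (by decide)
          · rfl
        · rintro ⟨i, h1, h2, h3⟩
          refine ⟨N - 1 - i, by omega, by omega, ?_⟩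
          rw [hM2 ζ (N - 1 - i) (by omega)]
          have e : N - 1 - (N - 1 - i) = i := by omega
          rw [e, h3]
          rfl
      unfold ind
      by_cases h : mir ζ ∈ {ξ : Cfg N | ∃ i, u < i ∧ i < B ∧ occ ξ i = false}
      · rw [if_pos h, if_pos (hiff.mp h)]
      · rw [if_neg h, if_neg (fun h' => h (hiff.mpr h'))]
    rw [hf]
  rw [hev]
  refine key.trans (le_of_eq ?_)
  -- the two sums
  have s1 : ∑ y ∈ Finset.Ico (N - 1 - c) (N - 1 - u'), v (N - 1 - y) =
      ∑ y ∈ Finset.Ioc u' c, v y := by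
    rw [Finset.sum_Ico_reflect v (N - 1 - c) (show N - 1 - u' ≤ (N - 1) + 1 by omega)]
    apply Finset.sum_congr _ (fun _ _ => rfl)
    ext b
    rw [Finset.mem_Ico, Finset.mem_Ioc]
    omega
  have s2 : ∑ z ∈ Finset.Ico (N - B) (N - 1 - u), RR (mirr N r) (mirr N l) z (N - 1 - u') =
      ∑ z ∈ Finset.Ioo u B, RR r l u' z := by
    have e : ∀ z ∈ Finset.Ico (N - B) (N - 1 - u),
        RR (mirr N r) (mirr N l) z (N - 1 - u') = (fun z => RR r l u' z) (N - 1 - z) :=
      fun z _ => walkh_RR r l (by omega)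
    rw [Finset.sum_congr rfl e, Finset.sum_Ico_reflect (fun z => RR r l u' z) (N - B)
      (show N - 1 - u ≤ (N - 1) + 1 by omega)]
    apply Finset.sum_congr _ (fun _ _ => rfl)
    ext b
    rw [Finset.mem_Ico, Finset.mem_Ioo]
    omega
  rw [s1, s2]

end Pool.Agent.Helper98.EX
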