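import Pool.Agent.Helper98.EX.Stmts2

/-!
# WCOND : the truncated travel time weights satisfy the hypothesis of WALK
-/

namespace Pool.Agent.Helper98.EX

open Finset

lemma wcond_RR_nonneg {N : ℕ} {r l : ℕ → ℝ} (h : Adm N r l) (z : ℕ) {y : ℕ} (hy : y < N) :
    0 ≤ RR r l z y := by
  unfold RR
  refine Finset.prod_nonneg (fun b hb => ?_)
  rw [Finset.mem_Ioc] at hb
  obtain ⟨h1, _, h3, _⟩ := h b (by omega) (by omega)
  exact div_nonneg h3 h1.le

lemma wcond_RR_succ {N : ℕ} {r l : ℕ → ℝ} {z y : ℕ} (hz : z ≤ y) :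
    RR r l z (y + 1) = RR r l z y * (l (y + 1) / r (y + 1)) := by
  unfold RR
  rw [← Finset.insert_Ioc_right_eq_Ioc_add_one hz, Finset.prod_insert (by simp)]
  ring

lemma wcond_atl_nonneg {N : ℕ} {r l : ℕ → ℝ} (h : Adm N r l) {η0 : ℝ} (hη : 0 < η0) (w : ℕ)
    {y : ℕ} (hy : y + 1 < N) : 0 ≤ atl r l η0 w y := by
  unfold atl
  refine Finset.sum_nonneg (fun d _ => ?_)
  obtain ⟨h1, _, _, _⟩ := h (y + 1) (by omega) hy
  have := wcond_RR_nonneg h (y - d) (show y < N by omega)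
  positivity

/-- `r_{y+1} atl y` as a plain sum -/
lemma wcond_r_atl {N : ℕ} {r l : ℕ → ℝ} (h : Adm N r l) (η0 : ℝ) (w : ℕ) {y : ℕ}
    (hy : y + 1 < N) : r (y + 1) * atl r l η0 w y =
      ∑ d ∈ Finset.range (min w (y + 1)), (1 + η0) ^ (d + 1) * RR r l (y - d) y := by
  unfold atl
  rw [Finset.mul_sum]
  refine Finset.sum_congr rfl (fun d _ => ?_)
  obtain ⟨h1, _, _, _⟩ := h (y + 1) (by omega) hy
  field_simp

lemma wcond_RR_self (r l : ℕ → ℝ) (y : ℕ) : RR r l y y = 1 := by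
  unfold RR; simp

/-- lower bound for `r_{y+1} atl y` at the left end -/
lemma wcond_low0 {N : ℕ} {r l : ℕ → ℝ} (h : Adm N r l) {η0 : ℝ} (hη : 0 < η0) {w : ℕ}
    (hw : 1 ≤ w) {y : ℕ} (hy : y + 1 < N) : 1 + η0 ≤ r (y + 1) * atl r l η0 w y := by
  rw [wcond_r_atl h η0 w hy]
  have hmin : 0 < min w (y + 1) := by omega
  have h0 := Finset.single_le_sum (f := fun d => (1 + η0) ^ (d + 1) * RR r l (y - d) y)
    (s := Finset.range (min w (y + 1))) (fun d _ => by
      have := wcond_RR_nonneg h (y - d) (show y < N by omega)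
      positivity) (Finset.mem_range.mpr hmin)
  simp only [Nat.sub_zero, wcond_RR_self, zero_add, pow_one, mul_one] at h0
  exact h0

/-- the recursion for `atl` -/
lemma wcond_rec {N : ℕ} {r l : ℕ → ℝ} (h : Adm N r l) {η0 : ℝ} (hη : 0 < η0) {w : ℕ}
    (hw : 1 ≤ w) {y : ℕ} (hy : y + 2 < N)
    (hfar : w ≤ y + 1 → (1 + η0) ^ (w + 1) * RR r l (y + 1 - w) (y + 1) ≤ η0 / 4) :
    (1 + η0) * (1 + l (y + 1) * atl r l η0 w y) - η0 / 4 ≤
      r (y + 2) * atl r l η0 w (y + 1) := by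
  have e1 := wcond_r_atl h η0 w (show (y + 1) + 1 < N by omega)
  have e0 := wcond_r_atl h η0 w (show y + 1 < N by omega)
  obtain ⟨hr1, _, hl1, _⟩ := h (y + 1) (by omega) (by omega)
  -- the term `(1+η0) l_{y+1} atl y` as a sum
  have e2 : (1 + η0) * (l (y + 1) * atl r l η0 w y) =
      ∑ d ∈ Finset.range (min w (y + 1)),
        (1 + η0) ^ (d + 1 + 1) * RR r l (y + 1 - (d + 1)) (y + 1) := by
    have e3 : l (y + 1) * atl r l η0 w y =
        l (y + 1) / r (y + 1) * (r (y + 1) * atl r l η0 w y) := by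
      field_simp
    rw [e3, e0, Finset.mul_sum, Finset.mul_sum]
    refine Finset.sum_congr rfl (fun d _ => ?_)
    have e4 : y + 1 - (d + 1) = y - d := by omega
    rw [e4, wcond_RR_succ (N := N) (show y - d ≤ y by omega)]
    ring
  have e5 : (1 + η0) * (1 + l (y + 1) * atl r l η0 w y) =
      ∑ d ∈ Finset.range (min w (y + 1) + 1),
        (1 + η0) ^ (d + 1) * RR r l (y + 1 - d) (y + 1) := by
    rw [Finset.sum_range_succ', mul_add, e2]
    simp only [Nat.sub_zero, wcond_RR_self, zero_add, pow_one, mul_one]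
    ring
  rw [e5]
  have e6 : r (y + 2) * atl r l η0 w (y + 1) = ∑ d ∈ Finset.range (min w (y + 1 + 1)),
      (1 + η0) ^ (d + 1) * RR r l (y + 1 - d) (y + 1) := e1
  rw [e6]
  rcases lt_or_ge (y + 1) w with hyw | hyw
  · have m1 : min w (y + 1) + 1 = y + 1 + 1 := by omega
    have m2 : min w (y + 1 + 1) = y + 1 + 1 := by omega
    rw [m1, m2]
    linarith
  · have m1 : min w (y + 1) + 1 = w + 1 := by omega
    have m2 : min w (y + 1 + 1) = w := by omega
    rw [m1, m2, Finset.sum_range_succ]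
    have := hfar hyw
    linarith

theorem st_WCOND : ST_WCOND := by
  intro N r l η0 as w A u' hAdm hη hη1 hw has hu' hat hfar y hAy hyu
  have hy1 : y + 1 < N := by omega
  have ha := wcond_atl_nonneg hAdm hη w hy1
  have hb := hat y hAy hyu
  set lam := η0 / (4 * as) with hlam
  have hlam0 : 0 < lam := by positivity
  have hla : lam * atl r l η0 w y ≤ η0 / 4 := by
    calc lam * atl r l η0 w y ≤ lam * as := mul_le_mul_of_nonneg_left hb hlam0.le
      _ = η0 / 4 := by rw [hlam]; field_simp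
  have hla0 : 0 ≤ lam * atl r l η0 w y := mul_nonneg hlam0.le ha
  by_cases hyA : y = A
  · rw [if_pos hyA, add_zero]
    have h1 := wcond_low0 hAdm hη hw hy1
    have h2 : (1 + lam * atl r l η0 w y) * lam ≤ (1 + η0) * lam :=
      mul_le_mul_of_nonneg_right (by linarith) hlam0.le
    have h3 : (1 + η0) * lam ≤ (r (y + 1) * atl r l η0 w y) * lam :=
      mul_le_mul_of_nonneg_right h1 hlam0.le
    calc _ ≤ (r (y + 1) * atl r l η0 w y) * lam := h2.trans h3
      _ = _ := by ring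
  · rw [if_neg hyA]
    obtain ⟨x, rfl⟩ : ∃ x, y = x + 1 := ⟨y - 1, by omega⟩
    have e : x + 1 - 1 = x := by omega
    rw [e]
    have h1 := wcond_rec hAdm hη hw (show x + 2 < N by omega) (fun hwx => hfar (x + 1) hwx hyu)
    obtain ⟨_, _, hl1, _⟩ := hAdm (x + 1) (by omega) (by omega)
    have hx0 := wcond_atl_nonneg hAdm hη w (show x + 1 < N by omega)
    set X := 1 + l (x + 1) * atl r l η0 w x with hX
    have hX1 : 1 ≤ X := by
      have := mul_nonneg hl1 hx0
      rw [hX]; linarith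
    have e2 : lam + l (x + 1) * (lam * atl r l η0 w x) = lam * X := by rw [hX]; ring
    rw [e2]
    have h2 : (1 + lam * atl r l η0 w (x + 1)) * (lam * X) ≤ (1 + η0 / 4) * (lam * X) :=
      mul_le_mul_of_nonneg_right (by linarith) (by positivity)
    have h3 : (1 + η0 / 4) * (lam * X) ≤ lam * ((1 + η0) * X - η0 / 4) := by
      have : 0 ≤ lam * (η0 * (X - 1)) := by
        have : 0 ≤ X - 1 := by linarith
        positivity
      nlinarith [mul_pos hlam0 hη, mul_nonneg (mul_pos hlam0 hη).le (by linarith : (0:ℝ) ≤ X)]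
    have h4 : lam * ((1 + η0) * X - η0 / 4) ≤ lam * (r (x + 2) * atl r l η0 w (x + 1)) :=
      mul_le_mul_of_nonneg_left h1 hlam0.le
    calc _ ≤ lam * (r (x + 2) * atl r l η0 w (x + 1)) := h2.trans (h3.trans h4)
      _ = _ := by ring

end Pool.Agent.Helper98.EX
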